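import Mathlib

/-!
Elementary facts on polynomials: moments, few coefficients and a high order zero at `1`.
-/

namespace Pool.Agent.H136R2.Cardy

open Polynomial

/-- the functional `r ↦ ∑ r_j Θ(j)` -/
noncomputable def mom (Θ : ℂ[X]) : ℂ[X] →ₗ[ℂ] ℂ :=
  Polynomial.lsum (fun j => (Θ.eval (j : ℂ)) • (LinearMap.id : ℂ →ₗ[ℂ] ℂ))

theorem mom_monomial (Θ : ℂ[X]) (j : ℕ) (c : ℂ) : mom Θ (monomial j c) = Θ.eval (j : ℂ) * c := by
  simp [mom]

theorem mom_X_mul (Θ : ℂ[X]) (r : ℂ[X]) : mom Θ (X * r) = mom (Θ.comp (X + 1)) r := by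
  induction r using Polynomial.induction_on' with
  | add p q hp hq => rw [mul_add, map_add, map_add, hp, hq]
  | monomial j c =>
    rw [X_mul_monomial, mom_monomial, mom_monomial]
    simp [eval_comp]

theorem mom_sub_left (Θ Θ' r : ℂ[X]) : mom (Θ - Θ') r = mom Θ r - mom Θ' r := by
  induction r using Polynomial.induction_on' with
  | add p q hp hq => rw [map_add, map_add, map_add, hp, hq]; ring
  | monomial j c =>
    rw [mom_monomial, mom_monomial, mom_monomial, eval_sub]; ring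

theorem mom_X_sub_one_mul (Θ : ℂ[X]) (r : ℂ[X]) :
    mom Θ ((X - 1) * r) = mom (Θ.comp (X + 1) - Θ) r := by
  rw [sub_mul, one_mul, map_sub, mom_X_mul, mom_sub_left]

theorem mom_C (c : ℂ) (r : ℂ[X]) : mom (C c) r = c * r.eval 1 := by
  induction r using Polynomial.induction_on' with
  | add p q hp hq => rw [map_add, eval_add, hp, hq]; ring
  | monomial j d => rw [mom_monomial]; simp

theorem comp_coeff (Θ : ℂ[X]) (M : ℕ) (h : Θ.natDegree ≤ M) (i : ℕ) :
    (Θ.comp (X + 1)).coeff i = ∑ j ∈ Finset.range (M + 1), Θ.coeff j * (j.choose i : ℂ) := by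
  conv_lhs => rw [Θ.as_sum_range' (M + 1) (by omega)]
  simp only [Polynomial.comp, eval₂_finsetSum, eval₂_monomial, finsetSum_coeff, coeff_C_mul,
    coeff_X_add_one_pow]

theorem delta_coeff_gt (Θ : ℂ[X]) (M : ℕ) (h : Θ.natDegree ≤ M + 1) (i : ℕ) (hi : M < i) :
    (Θ.comp (X + 1) - Θ).coeff i = 0 := by
  rw [coeff_sub, comp_coeff Θ (M + 1) h, sub_eq_zero]
  rcases Nat.lt_or_ge (M + 1) i with h1 | h1
  · rw [coeff_eq_zero_of_natDegree_lt (by omega)]
    apply Finset.sum_eq_zero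
    intro j hj
    rw [Finset.mem_range] at hj
    rw [Nat.choose_eq_zero_of_lt (by omega)]; simp
  · obtain rfl : i = M + 1 := by omega
    rw [Finset.sum_eq_single_of_mem (M + 1) (by simp)]
    · simp
    · intro j hj hne
      rw [Finset.mem_range] at hj
      rw [Nat.choose_eq_zero_of_lt (by omega)]; simp

theorem delta_natDegree (Θ : ℂ[X]) (M : ℕ) (h : Θ.natDegree ≤ M + 1) :
    (Θ.comp (X + 1) - Θ).natDegree ≤ M := by
  rw [Polynomial.natDegree_le_iff_coeff_eq_zero]
  exact fun i hi => delta_coeff_gt Θ M h i hi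

theorem delta_coeff_top (Θ : ℂ[X]) (M : ℕ) (h : Θ.natDegree ≤ M + 1) :
    (Θ.comp (X + 1) - Θ).coeff M = (M + 1) * Θ.coeff (M + 1) := by
  rw [coeff_sub, comp_coeff Θ (M + 1) h, Finset.sum_range_succ, Finset.sum_range_succ,
    Finset.sum_eq_zero]
  · simp; ring
  · intro j hj
    rw [Finset.mem_range] at hj
    rw [Nat.choose_eq_zero_of_lt (by omega)]; simp

/-- moments of a polynomial with a zero of order `≥ M` at `1` -/
theorem moment (M : ℕ) : ∀ (Θ r : ℂ[X]), Θ.natDegree ≤ M →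
    mom Θ ((X - 1)^M * r) = Θ.coeff M * (M.factorial : ℂ) * r.eval 1 := by
  induction M with
  | zero =>
    intro Θ r h
    rw [Nat.le_zero, natDegree_eq_zero] at h
    obtain ⟨c, rfl⟩ := h
    rw [pow_zero, one_mul, mom_C]; simp
  | succ M ih =>
    intro Θ r h
    rw [pow_succ', mul_assoc, mom_X_sub_one_mul, ih _ _ (delta_natDegree Θ M h),
      delta_coeff_top Θ M h, Nat.factorial_succ]
    push_cast; ring

theorem moment_zero {M : ℕ} {Θ h : ℂ[X]} (hd : (X - 1)^M ∣ h) (hΘ : Θ.natDegree < M) :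
    mom Θ h = 0 := by
  obtain ⟨r, rfl⟩ := hd
  rw [moment M Θ r hΘ.le, coeff_eq_zero_of_natDegree_lt hΘ]; ring

theorem mom_eq_sum (Θ h : ℂ[X]) (N : ℕ) (hN : h.natDegree < N) :
    mom Θ h = ∑ j ∈ Finset.range N, Θ.eval (j : ℂ) * h.coeff j := by
  conv_lhs => rw [h.as_sum_range' N hN]
  rw [map_sum]
  exact Finset.sum_congr rfl fun j _ => mom_monomial _ _ _

/-- a polynomial with at most `k` nonzero coefficients and a zero of order `≥ k` at `1` is `0` -/
theorem van {k : ℕ} {h : ℂ[X]} (s : Finset ℕ) (hs : ∀ j, h.coeff j ≠ 0 → j ∈ s) (hc : s.card ≤ k)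
    (hd : (X - 1)^k ∣ h) : h = 0 := by
  classical
  by_contra hne
  obtain ⟨j0, hj0⟩ : ∃ j0, h.coeff j0 ≠ 0 := by
    by_contra hcon
    push Not at hcon
    exact hne (Polynomial.ext (by simpa using hcon))
  have hj0s := hs j0 hj0
  set Θ : ℂ[X] := ∏ j ∈ s.erase j0, (X - C (j : ℂ)) with hΘ
  have hdeg : Θ.natDegree < k := by
    rw [hΘ, natDegree_prod_of_monic _ _ (fun j _ => monic_X_sub_C _)]
    simp only [natDegree_X_sub_C, Finset.sum_const, smul_eq_mul, mul_one]
    rw [Finset.card_erase_of_mem hj0s]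
    have : 0 < s.card := Finset.card_pos.mpr ⟨_, hj0s⟩
    omega
  have h0 := moment_zero hd hdeg
  rw [mom_eq_sum Θ h (h.natDegree + 1) (by omega), Finset.sum_eq_single_of_mem j0] at h0
  · have : Θ.eval (j0 : ℂ) ≠ 0 := by
      rw [hΘ, eval_prod, Finset.prod_ne_zero_iff]
      intro j hj
      rw [Finset.mem_erase] at hj
      simp only [eval_sub, eval_X, eval_C]
      rw [sub_ne_zero]
      exact_mod_cast hj.1.symm
    exact (mul_ne_zero this hj0) h0
  · rw [Finset.mem_range]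
    exact Nat.lt_succ_of_le (le_natDegree_of_ne_zero hj0)
  · intro j _ hne'
    by_cases hj : h.coeff j = 0
    · rw [hj, mul_zero]
    · have : Θ.eval (j : ℂ) = 0 := by
        rw [hΘ, eval_prod]
        apply Finset.prod_eq_zero (Finset.mem_erase.mpr ⟨hne', hs j hj⟩)
        simp
      rw [this, zero_mul]

end Pool.Agent.H136R2.Cardy
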