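import Mathlib

namespace Pool.Agent.H136R2.Cardy

open Polynomial

/-- `W^(3n+1) Δ(W) G(W)`, where `G` is the Laurent polynomial `W^(-n) G`. -/
noncomputable def pp (n : ℕ) (G : ℂ[X]) : ℂ[X] := (X + 1) * (X - 1)^(4*n+1) * G

/-- `W^(3n+1) (q g(q²W) ... )` the two reflection defects -/
noncomputable def dA (q : ℂ) (n : ℕ) (p : ℂ[X]) : ℂ[X] :=
  C q * p.comp (C (q^2) * X) - C (q^2) * (reflect (6*n+2) p).comp (C q * X)

noncomputable def dB (q : ℂ) (n : ℕ) (p : ℂ[X]) : ℂ[X] :=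
  C (q^2) * p.comp (C q * X) - C q * (reflect (6*n+2) p).comp (C (q^2) * X)

/-- the weight -/
noncomputable def Ph (n : ℕ) (x : ℂ) : ℂ :=
  (x - n) * ∏ m ∈ Finset.range (2*n), ((x - m - 1/3) * (x - m - 2/3))

/-- the output data of the qKZ part for `G = G_right(1^a; W; 1^b)`, `T = ` total, both as
polynomials of degree `≤ 2n = a + b` in `W` (Laurent polynomials multiplied by `W^n`). -/
structure Data (q : ℂ) (a b n : ℕ) (G T : ℂ[X]) : Prop where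
  hG : G.natDegree ≤ 2*n
  hT : T.natDegree ≤ 2*n
  hTs : reflect (2*n) T = T
  hT3 : ∀ k, k % 3 = 1 → (pp n T).coeff k = 0
  hne : T.coeff (2*n) ≠ 0
  top : G.coeff (2*n) = -q * T.coeff (2*n)
  bot : G.coeff 0 = -q^2 * T.coeff (2*n)
  /-- `g(q⁻¹W) - g(q⁻¹/W)` is divisible by `(W-1)^(2a)` -/
  hA : (X - 1)^(2*a) ∣ dA q n (pp n G)
  /-- `g(qW) - g(q/W)` is divisible by `(W-1)^(2b)` -/
  hB : (X - 1)^(2*b) ∣ dB q n (pp n G)

end Pool.Agent.H136R2.Cardy
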