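import Pool.Agent.H337R2.CB.Inst

/-!
The kernel identity: the functional `M_L` on monomials.
-/

namespace Pool.Agent.H136R2.Cardy

open Polynomial H337CB

/-- the weight over `ℚ` -/
noncomputable def PhQ (n : ℕ) (x : ℚ) : ℚ :=
  (x - n) * ∏ m ∈ Finset.range (2*n), ((x - m - 1/3) * (x - m - 2/3))

/-- weight polynomial -/
noncomputable def php (n : ℕ) : ℚ[X] :=
  (X - C (n : ℚ)) * ∏ m ∈ Finset.range (2*n), ((X - C ((m:ℚ) + 1/3)) * (X - C ((m:ℚ) + 2/3)))

theorem php_eval (n : ℕ) (x : ℚ) : (php n).eval x = PhQ n x := by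
  unfold php PhQ
  rw [eval_mul, eval_prod]
  congr 1
  · simp
  · apply Finset.prod_congr rfl
    intro m _
    simp only [eval_mul, eval_sub, eval_X, eval_C]; ring

theorem php_natDegree (n : ℕ) : (php n).natDegree ≤ 4*n+1 := by
  unfold php
  refine natDegree_mul_le.trans ?_
  have h1 : (∏ m ∈ Finset.range (2*n), ((X - C ((m:ℚ) + 1/3)) * (X - C ((m:ℚ) + 2/3)))).natDegree ≤
      ∑ _m ∈ Finset.range (2*n), 2 := by
    refine (natDegree_prod_le _ _).trans (Finset.sum_le_sum fun m _ => ?_)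
    refine natDegree_mul_le.trans ?_
    rw [natDegree_X_sub_C, natDegree_X_sub_C]
  rw [natDegree_X_sub_C]
  simp only [Finset.sum_const, Finset.card_range, smul_eq_mul] at h1
  omega

/-- `x ↦ R (4n+1) (x - 2/3) (P L)` as a polynomial -/
noncomputable def rp (n : ℕ) : ℚ[X] :=
  ∑ k ∈ Finset.range (2*n+2), C ((P (2*n+1)).coeff k / ((4*n+1).factorial : ℚ)) *
    ∏ i ∈ Finset.range (4*n+1), (X + C ((k:ℚ) - 2/3 - i))

theorem rp_eval (n : ℕ) (x : ℚ) : (rp n).eval x = R (4*n+1) (x - 2/3) (P (2*n+1)) := by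
  rw [R_eq_sum' _ _ _ (2*n+1) (natDegree_P_le _)]
  unfold rp
  rw [eval_finsetSum]
  apply Finset.sum_congr rfl
  intro k _
  rw [eval_mul, eval_C, eval_prod, Pool.Agent.H28R2.Cardy.choose_prod, mul_comm_div]
  congr 2
  apply Finset.prod_congr rfl
  intro i _
  simp only [eval_add, eval_X, eval_C]; ring

theorem rp_natDegree (n : ℕ) : (rp n).natDegree ≤ 4*n+1 := by
  unfold rp
  apply natDegree_sum_le_of_forall_le
  intro k _
  refine (natDegree_C_mul_le _ _).trans ?_
  refine (natDegree_prod_le _ _).trans ?_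
  have : ∀ i ∈ Finset.range (4*n+1), (X + C ((k:ℚ) - 2/3 - i)).natDegree ≤ 1 := by
    intro i _; rw [natDegree_X_add_C]
  refine (Finset.sum_le_sum this).trans ?_
  simp

theorem R_nat_zero (n j : ℕ) (hj : j < 2*n) (F : ℚ[X]) (hF : F.natDegree ≤ 2*n+1) :
    R (4*n+1) (j : ℚ) F = 0 := by
  rw [R_eq_sum' _ _ _ (2*n+1) hF]
  apply Finset.sum_eq_zero
  intro k hk
  rw [Finset.mem_range] at hk
  have : Ring.choose ((j:ℚ) + k) (4*n+1) = 0 := by
    have h := Ring.choose_natCast (R := ℚ) (j + k) (4*n+1)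
    rw [Nat.choose_eq_zero_of_lt (by omega)] at h
    push_cast at h
    exact h
  rw [this, mul_zero]

/-- zeros of the first kind -/
theorem rp_zero2 (n j : ℕ) (hj : j < 2*n) : (rp n).eval ((j:ℚ) + 2/3) = 0 := by
  rw [rp_eval, show (j:ℚ) + 2/3 - 2/3 = j by ring]
  exact R_nat_zero n j hj _ (natDegree_P_le _)

theorem R_swap' (n : ℕ) (c : ℚ) :
    R (4*n+1) c (P (2*n+1)) = R (4*n+1) (c + 1/3) (Ps (2*n+1)) := by
  have h := R_swap (4*n+1) (2*n+1) (by omega) c 1
  rw [mul_one, mul_one] at h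
  exact h.symm

theorem rp_zero1 (n j : ℕ) (hj : j < 2*n) : (rp n).eval ((j:ℚ) + 1/3) = 0 := by
  rw [rp_eval, R_swap', show (j:ℚ) + 1/3 - 2/3 + 1/3 = j by ring]
  exact R_nat_zero n j hj _ (natDegree_Ps_le _)

theorem rp_zeron (n : ℕ) : (rp n).eval (n:ℚ) = 0 := by
  rw [rp_eval]
  have h1 := R_refl (4*n+1) ((n:ℚ) - 2/3) (P (2*n+1)) (2*n+1) (natDegree_P_le _)
  rw [reflect_P] at h1
  have e : (((4*n+1 : ℕ):ℚ) - 1 - ((n:ℚ) - 2/3) - ((2*n+1 : ℕ):ℚ)) = (n:ℚ) - 2/3 + 1/3 := by
    push_cast; ring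
  rw [e, ← R_swap', Odd.neg_one_pow ⟨2*n, by ring⟩] at h1
  linarith

theorem rp_one (n : ℕ) : (rp n).eval (2*(n:ℚ) + 1/3) = 1 := by
  rw [rp_eval, R_swap', show 2*(n:ℚ) + 1/3 - 2/3 + 1/3 = ((2*n : ℕ) : ℚ) by push_cast; ring,
    R_eq_sum' _ _ _ (2*n+1) (natDegree_Ps_le _), Finset.sum_range_succ, Finset.sum_eq_zero]
  · have : Ring.choose (((2*n : ℕ):ℚ) + ((2*n+1 : ℕ):ℚ)) (4*n+1) = 1 := by
      have h := Ring.choose_natCast (R := ℚ) (2*n + (2*n+1)) (4*n+1)
      rw [show 2*n + (2*n+1) = 4*n+1 by ring, Nat.choose_self] at h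
      rw [← Nat.cast_add, show 2*n + (2*n+1) = 4*n+1 by ring, h]; simp
    rw [this, ← reflect_P, coeff_reflect, revAt_le le_rfl, Nat.sub_self, coeff_zero_eq_eval_zero,
      eval_zero_P]
    ring
  · intro k hk
    rw [Finset.mem_range] at hk
    have : Ring.choose (((2*n : ℕ):ℚ) + (k:ℚ)) (4*n+1) = 0 := by
      have h := Ring.choose_natCast (R := ℚ) (2*n + k) (4*n+1)
      rw [Nat.choose_eq_zero_of_lt (by omega)] at h
      rw [← Nat.cast_add, h]; simp
    rw [this, mul_zero]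

/-- kernel identity -/
theorem rp_php (n : ℕ) : C (PhQ n (2*n + 1/3)) * rp n = php n := by
  classical
  rw [← sub_eq_zero]
  set s : Finset ℕ := insert (3*n) ((Finset.range (2*n+1)).image (fun m => 3*m+1) ∪
    (Finset.range (2*n)).image (fun m => 3*m+2)) with hs
  have hcard : s.card = 4*n+2 := by
    rw [hs, Finset.card_insert_of_notMem, Finset.card_union_of_disjoint,
      Finset.card_image_of_injective, Finset.card_image_of_injective]
    · simp; ring
    · intro x y h; simpa using h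
    · intro x y h; simpa using h
    · rw [Finset.disjoint_left]
      intro x h1 h2
      rw [Finset.mem_image] at h1 h2
      obtain ⟨y, _, h1⟩ := h1
      obtain ⟨z, _, h2⟩ := h2
      omega
    · intro h
      rw [Finset.mem_union, Finset.mem_image, Finset.mem_image] at h
      rcases h with ⟨y, _, h1⟩ | ⟨y, _, h1⟩ <;> omega
  have hinj : Function.Injective (fun j : ℕ => (j:ℚ)/3) := by
    intro x y h
    simp only at h
    have : (x:ℚ) = y := by linarith
    exact_mod_cast this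
  apply eq_zero_of_natDegree_lt_card_of_eval_eq_zero' _ (s.image (fun j : ℕ => (j:ℚ)/3))
  · intro x hx
    rw [Finset.mem_image] at hx
    obtain ⟨j, hj, rfl⟩ := hx
    rw [eval_sub, eval_mul, eval_C, php_eval]
    rw [hs, Finset.mem_insert, Finset.mem_union, Finset.mem_image, Finset.mem_image] at hj
    rcases hj with rfl | ⟨m, hm, rfl⟩ | ⟨m, hm, rfl⟩
    · rw [show ((3*n : ℕ):ℚ)/3 = n by push_cast; ring, rp_zeron]
      unfold PhQ; ring
    · rw [Finset.mem_range] at hm
      rw [show ((3*m+1 : ℕ):ℚ)/3 = m + 1/3 by push_cast; ring]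
      rcases Nat.lt_or_ge m (2*n) with h | h
      · rw [rp_zero1 n m h]
        have : PhQ n ((m:ℚ) + 1/3) = 0 := by
          unfold PhQ
          rw [Finset.prod_eq_zero (i := m) (Finset.mem_range.mpr h), mul_zero]
          ring
        rw [this]; ring
      · obtain rfl : m = 2*n := by omega
        push_cast
        rw [rp_one]; ring
    · rw [Finset.mem_range] at hm
      rw [show ((3*m+2 : ℕ):ℚ)/3 = m + 2/3 by push_cast; ring, rp_zero2 n m hm]
      have : PhQ n ((m:ℚ) + 2/3) = 0 := by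
        unfold PhQ
        rw [Finset.prod_eq_zero (i := m) (Finset.mem_range.mpr hm), mul_zero]
        ring
      rw [this]; ring
  · rw [Finset.card_image_of_injective _ hinj, hcard]
    refine lt_of_le_of_lt (natDegree_sub_le _ _) ?_
    rw [max_lt_iff]
    exact ⟨lt_of_le_of_lt (natDegree_C_mul_le _ _) (by have := rp_natDegree n; omega),
      by have := php_natDegree n; omega⟩

theorem kappa (n i : ℕ) :
    PhQ n (2*n + 1/3) * R (4*n+1) (-2/3) (P (2*n+1) * X^i) = PhQ n i := by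
  have h := congrArg (fun f => f.eval (i:ℚ)) (rp_php n)
  simp only [eval_mul, eval_C, php_eval, rp_eval] at h
  rw [← h]
  congr 1
  unfold R
  have e : ev (P (2*n+1) * X^i) = ev (P (2*n+1)) * pw (i:ℚ) := by
    rw [map_mul ev, map_pow ev, ev_X, ← pw_nat]
  rw [e, show ((i:ℚ) - 2/3) = -2/3 + i by ring, pw_add]
  congr 1
  ring

/-- `M_L` in terms of the weight -/
theorem M_weight (n : ℕ) (h : ℚ[X]) (hh : h.natDegree ≤ 2*n) :
    PhQ n (2*n + 1/3) * M (2*n+1) h = ∑ i ∈ Finset.range (2*n+1), h.coeff i * PhQ n i := by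
  unfold M
  rw [show 2*(2*n+1) - 1 = 4*n+1 by omega]
  have hsum : P (2*n+1) * h = ∑ i ∈ Finset.range (2*n+1), C (h.coeff i) * (P (2*n+1) * X^i) := by
    conv_lhs => rw [h.as_sum_range_C_mul_X_pow' (n := 2*n+1) (by omega)]
    rw [Finset.mul_sum]
    apply Finset.sum_congr rfl
    intro i _; ring
  rw [hsum]
  have hlin : ∀ s : Finset ℕ, R (4*n+1) (-2/3) (∑ i ∈ s, C (h.coeff i) * (P (2*n+1) * X^i)) =
      ∑ i ∈ s, h.coeff i * R (4*n+1) (-2/3) (P (2*n+1) * X^i) := by
    intro s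
    classical
    induction s using Finset.induction_on with
    | empty => simp [R_zero]
    | insert a s ha ih => rw [Finset.sum_insert ha, Finset.sum_insert ha, R_add, R_C, ih]
  rw [hlin, Finset.mul_sum]
  apply Finset.sum_congr rfl
  intro i _
  rw [← kappa n i]; ring

end Pool.Agent.H136R2.Cardy
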