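import Pool.Agent.H136R2.Cardy.OneVar

/-!
The one-variable theorem: explicit value.
-/

namespace Pool.Agent.H136R2.Cardy

open Polynomial

theorem qpow {q : ℂ} (hq : q^3 = 1) {m k : ℕ} (h : m % 3 = k % 3) : q^m = q^k := by
  have e : ∀ j : ℕ, q^j = q^(j % 3) := by
    intro j
    conv_lhs => rw [← Nat.div_add_mod j 3, pow_add, pow_mul, hq, one_pow, one_mul]
  rw [e m, e k, h]

theorem comp_coeff' (c : ℂ) (f : ℂ[X]) (i : ℕ) : (f.comp (C c * X)).coeff i = f.coeff i * c^i :=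
  comp_C_mul_X_coeff

theorem comp_natDegree (c : ℂ) (f : ℂ[X]) (N : ℕ) (h : f.natDegree ≤ N) :
    (f.comp (C c * X)).natDegree ≤ N := by
  rw [Polynomial.natDegree_le_iff_coeff_eq_zero]
  intro i hi
  rw [comp_coeff', coeff_eq_zero_of_natDegree_lt (by omega), zero_mul]

/-- an antisymmetric polynomial of even formal degree has a zero of odd order at `1` -/
theorem odd_order {N k : ℕ} {f : ℂ[X]} (hk : 2*k ≤ N) (hf : f.natDegree ≤ N)
    (hr : reflect N f = -f) (hd : (X - 1)^(2*k) ∣ f) : (X - 1)^(2*k+1) ∣ f := by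
  obtain ⟨K, hK⟩ := hd
  by_cases hK0 : K = 0
  · rw [hK, hK0, mul_zero]; exact dvd_zero _
  have hmon : ((X - 1 : ℂ[X])^(2*k)).Monic := by
    apply Monic.pow; rw [← C_1]; exact monic_X_sub_C 1
  have hdeg : ((X - 1 : ℂ[X])^(2*k)).natDegree = 2*k := by
    rw [natDegree_pow, ← C_1, natDegree_X_sub_C, mul_one]
  have hKd : K.natDegree ≤ N - 2*k := by
    have h1 : (((X - 1 : ℂ[X])^(2*k)) * K).natDegree = 2*k + K.natDegree := by
      rw [hmon.natDegree_mul' hK0, hdeg]
    rw [← hK] at h1; omega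
  have href : ∀ j : ℕ, reflect j ((X - 1 : ℂ[X])^j) = (1 - X)^j := by
    intro j
    induction j with
    | zero => simp
    | succ j ih =>
      have hj : ((X - 1 : ℂ[X])^j).natDegree ≤ j := by
        rw [natDegree_pow, ← C_1, natDegree_X_sub_C, mul_one]
      have h1 : (X - 1 : ℂ[X]).natDegree ≤ 1 := by rw [← C_1, natDegree_X_sub_C]
      rw [pow_succ, pow_succ, reflect_mul _ _ hj h1, ih]
      congr 1
      rw [reflect_sub, reflect_one_X, ← C_1, reflect_C]; simp
  have h2 : reflect N f = (X - 1)^(2*k) * reflect (N - 2*k) K := by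
    conv_lhs => rw [hK, show N = 2*k + (N - 2*k) by omega]
    rw [reflect_mul _ _ hdeg.le hKd, href, show (1 - X : ℂ[X]) = -(X - 1) by ring,
      Even.neg_pow (even_two_mul k)]
  rw [h2] at hr
  have h3 : reflect (N - 2*k) K = -K := by
    apply mul_left_cancel₀ hmon.ne_zero
    rw [hr]; conv_lhs => rw [hK]
    ring
  have h4 : K.eval 1 = 0 := by
    have h5 := eval_one_reflect _ K hKd
    rw [h3, eval_neg] at h5
    linear_combination (-1/2) * h5
  have h6 : (X - 1) ∣ K := by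
    rw [← C_1, dvd_iff_isRoot]; exact h4
  rw [hK, pow_succ]
  exact mul_dvd_mul_left _ h6

theorem dA_reflect {q : ℂ} (hq : q^3 = 1) (n : ℕ) (p : ℂ[X]) (hp : p.natDegree ≤ 6*n+2) :
    reflect (6*n+2) (dA q n p) = - dA q n p := by
  ext i
  rw [coeff_reflect, coeff_neg]
  unfold dA
  simp only [coeff_sub, coeff_C_mul, comp_coeff', coeff_reflect]
  by_cases h : i ≤ 6*n+2
  · rw [revAt_le h, revAt_le (show 6*n+2-i ≤ 6*n+2 by omega), show 6*n+2-(6*n+2-i) = i by omega]
    have e1 : q * (q^2)^(6*n+2-i) = q^2 * q^i := by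
      rw [← pow_mul, ← pow_succ', ← pow_add]
      exact qpow hq (by omega)
    have e2 : q^2 * q^(6*n+2-i) = q * (q^2)^i := by
      rw [← pow_mul, ← pow_succ', ← pow_add]
      exact qpow hq (by omega)
    linear_combination p.coeff (6*n+2-i) * e1 - p.coeff i * e2
  · rw [revAt_eq_self_of_lt (show 6*n+2 < i by omega), revAt_eq_self_of_lt (show 6*n+2 < i by omega),
      coeff_eq_zero_of_natDegree_lt (by omega)]
    ring

theorem dB_reflect {q : ℂ} (hq : q^3 = 1) (n : ℕ) (p : ℂ[X]) (hp : p.natDegree ≤ 6*n+2) :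
    reflect (6*n+2) (dB q n p) = - dB q n p := by
  ext i
  rw [coeff_reflect, coeff_neg]
  unfold dB
  simp only [coeff_sub, coeff_C_mul, comp_coeff', coeff_reflect]
  by_cases h : i ≤ 6*n+2
  · rw [revAt_le h, revAt_le (show 6*n+2-i ≤ 6*n+2 by omega), show 6*n+2-(6*n+2-i) = i by omega]
    have e1 : q^2 * q^(6*n+2-i) = q * (q^2)^i := by
      rw [← pow_mul, ← pow_succ', ← pow_add]
      exact qpow hq (by omega)
    have e2 : q * (q^2)^(6*n+2-i) = q^2 * q^i := by
      rw [← pow_mul, ← pow_succ', ← pow_add]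
      exact qpow hq (by omega)
    linear_combination p.coeff (6*n+2-i) * e1 - p.coeff i * e2
  · rw [revAt_eq_self_of_lt (show 6*n+2 < i by omega), revAt_eq_self_of_lt (show 6*n+2 < i by omega),
      coeff_eq_zero_of_natDegree_lt (by omega)]
    ring

theorem refl_natDegree {N : ℕ} {f : ℂ[X]} (hp : f.natDegree ≤ N) :
    (reflect N f).natDegree ≤ N := natDegree_reflect_le' _ _ hp

theorem dA_natDegree (q : ℂ) (n : ℕ) (p : ℂ[X]) (hp : p.natDegree ≤ 6*n+2) :
    (dA q n p).natDegree ≤ 6*n+2 := by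
  unfold dA
  refine (natDegree_sub_le _ _).trans (max_le ?_ ?_)
  · exact (natDegree_C_mul_le _ _).trans (comp_natDegree _ _ _ hp)
  · exact (natDegree_C_mul_le _ _).trans (comp_natDegree _ _ _ (refl_natDegree hp))

theorem dB_natDegree (q : ℂ) (n : ℕ) (p : ℂ[X]) (hp : p.natDegree ≤ 6*n+2) :
    (dB q n p).natDegree ≤ 6*n+2 := by
  unfold dB
  refine (natDegree_sub_le _ _).trans (max_le ?_ ?_)
  · exact (natDegree_C_mul_le _ _).trans (comp_natDegree _ _ _ hp)
  · exact (natDegree_C_mul_le _ _).trans (comp_natDegree _ _ _ (refl_natDegree hp))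

/-! ### the polynomial `pp n G` -/

theorem pre_natDegree (n : ℕ) : ((X + 1) * (X - 1 : ℂ[X])^(4*n+1)).natDegree = 4*n+2 := by
  have h1 : (X + 1 : ℂ[X]).natDegree = 1 := by rw [← C_1, natDegree_X_add_C]
  have h2 : ((X - 1 : ℂ[X])^(4*n+1)).natDegree = 4*n+1 := by
    rw [natDegree_pow, ← C_1, natDegree_X_sub_C, mul_one]
  have hm : (X + 1 : ℂ[X]).Monic := by rw [← C_1]; exact monic_X_add_C 1
  have hm2 : ((X - 1 : ℂ[X])^(4*n+1)).Monic := by
    apply Monic.pow; rw [← C_1]; exact monic_X_sub_C 1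
  rw [hm.natDegree_mul hm2, h1, h2]; ring

theorem pre_monic (n : ℕ) : ((X + 1) * (X - 1 : ℂ[X])^(4*n+1)).Monic := by
  have hm : (X + 1 : ℂ[X]).Monic := by rw [← C_1]; exact monic_X_add_C 1
  have hm2 : ((X - 1 : ℂ[X])^(4*n+1)).Monic := by
    apply Monic.pow; rw [← C_1]; exact monic_X_sub_C 1
  exact hm.mul hm2

theorem pp_natDegree {n : ℕ} {G : ℂ[X]} (hG : G.natDegree ≤ 2*n) :
    (pp n G).natDegree ≤ 6*n+2 := by
  unfold pp
  refine natDegree_mul_le.trans ?_
  rw [pre_natDegree]; omega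

theorem pp_top {n : ℕ} {G : ℂ[X]} (hG : G.natDegree ≤ 2*n) :
    (pp n G).coeff (6*n+2) = G.coeff (2*n) := by
  unfold pp
  rw [show 6*n+2 = (4*n+2) + 2*n by ring, coeff_mul_add_eq_of_natDegree_le (pre_natDegree n).le hG]
  have : ((X + 1) * (X - 1 : ℂ[X])^(4*n+1)).coeff (4*n+2) = 1 := by
    have := pre_monic n
    rw [Monic, leadingCoeff, pre_natDegree] at this
    exact this
  rw [this, one_mul]

theorem pp_bot (n : ℕ) (G : ℂ[X]) : (pp n G).coeff 0 = - G.coeff 0 := by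
  unfold pp
  rw [mul_coeff_zero, coeff_zero_eq_eval_zero ((X + 1) * (X - 1 : ℂ[X])^(4*n+1))]
  simp only [eval_mul, eval_add, eval_X, eval_one, eval_pow, eval_sub]
  rw [zero_add, one_mul, zero_sub, Odd.neg_one_pow ⟨2*n, by ring⟩]; ring

theorem pp_reflect {n : ℕ} {G : ℂ[X]} (hG : G.natDegree ≤ 2*n) :
    reflect (6*n+2) (pp n G) = - pp n (reflect (2*n) G) := by
  have href : ∀ j : ℕ, reflect j ((X - 1 : ℂ[X])^j) = (1 - X)^j := by
    intro j
    induction j with
    | zero => simp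
    | succ j ih =>
      have hj : ((X - 1 : ℂ[X])^j).natDegree ≤ j := by
        rw [natDegree_pow, ← C_1, natDegree_X_sub_C, mul_one]
      have h1 : (X - 1 : ℂ[X]).natDegree ≤ 1 := by rw [← C_1, natDegree_X_sub_C]
      rw [pow_succ, pow_succ, reflect_mul _ _ hj h1, ih]
      congr 1
      rw [reflect_sub, reflect_one_X, ← C_1, reflect_C]; simp
  have h1 : (X + 1 : ℂ[X]).natDegree ≤ 1 := by rw [← C_1, natDegree_X_add_C]
  have h2 : ((X - 1 : ℂ[X])^(4*n+1)).natDegree ≤ 4*n+1 := by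
    rw [natDegree_pow, ← C_1, natDegree_X_sub_C, mul_one]
  unfold pp
  rw [show 6*n+2 = (1 + (4*n+1)) + 2*n by ring,
    reflect_mul _ _ (by rw [pre_natDegree]; omega) hG, reflect_mul _ _ h1 h2, href,
    reflect_add, reflect_one_X, ← C_1, reflect_C, show (C 1 - X : ℂ[X]) = -(X - C 1) by ring,
    Odd.neg_pow ⟨2*n, by ring⟩]
  simp only [C_1, one_mul, pow_one]
  ring

/-! ### the weight polynomial -/

/-- `Θ(k)` -/
noncomputable def Th (n : ℕ) : ℂ[X] :=
  (X - C ((3*n+1 : ℕ) : ℂ)) * ∏ m ∈ Finset.range (2*n),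
    ((X - C ((3*m+2 : ℕ) : ℂ)) * (X - C ((3*m+3 : ℕ) : ℂ)))

theorem Th_monic (n : ℕ) : (Th n).Monic := by
  unfold Th
  apply (monic_X_sub_C _).mul
  exact monic_prod_of_monic _ _ fun m _ => (monic_X_sub_C _).mul (monic_X_sub_C _)

theorem Th_natDegree (n : ℕ) : (Th n).natDegree = 4*n+1 := by
  unfold Th
  rw [(monic_X_sub_C _).natDegree_mul (monic_prod_of_monic _ _ fun m _ =>
    (monic_X_sub_C _).mul (monic_X_sub_C _)), natDegree_prod_of_monic _ _ (fun m _ =>
    (monic_X_sub_C _).mul (monic_X_sub_C _))]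
  have : ∀ m ∈ Finset.range (2*n), ((X - C ((3*m+2 : ℕ) : ℂ)) * (X - C ((3*m+3 : ℕ) : ℂ))).natDegree = 2 := by
    intro m _
    rw [(monic_X_sub_C _).natDegree_mul (monic_X_sub_C _), natDegree_X_sub_C, natDegree_X_sub_C]
  rw [Finset.sum_congr rfl this, natDegree_X_sub_C]; simp; ring

theorem Th_top (n : ℕ) : (Th n).coeff (4*n+1) = 1 := by
  have := Th_monic n
  rw [Monic, leadingCoeff, Th_natDegree] at this
  exact this

theorem Th_eval (n : ℕ) (x : ℂ) : (Th n).eval (3*x+1) = 3^(4*n+1) * Ph n x := by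
  unfold Th Ph
  rw [eval_mul, eval_prod]
  have h1 : ∀ m ∈ Finset.range (2*n), eval (3*x+1) ((X - C ((3*m+2 : ℕ) : ℂ)) *
      (X - C ((3*m+3 : ℕ) : ℂ))) = 9 * ((x - m - 1/3) * (x - m - 2/3)) := by
    intro m _
    simp only [eval_mul, eval_sub, eval_X, eval_C]
    push_cast; ring
  rw [Finset.prod_congr rfl h1, Finset.prod_mul_distrib, Finset.prod_const, Finset.card_range]
  simp only [eval_sub, eval_X, eval_C]
  rw [pow_succ, show 4*n = 2*(2*n) by ring, pow_mul (3:ℂ) 2, show (3:ℂ)^2 = 9 by norm_num]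
  push_cast; ring

theorem Ph_antisymm (n : ℕ) (x : ℂ) : Ph n (2*n - x) = - Ph n x := by
  unfold Ph
  have h1 : ∏ m ∈ Finset.range (2*n), ((2*(n:ℂ) - x - m - 1/3) * (2*(n:ℂ) - x - m - 2/3)) =
      ∏ m ∈ Finset.range (2*n), ((x - m - 1/3) * (x - m - 2/3)) := by
    rw [← Finset.prod_range_reflect]
    apply Finset.prod_congr rfl
    intro m hm
    rw [Finset.mem_range] at hm
    have : ((2*n - 1 - m : ℕ) : ℂ) = 2*n - 1 - m := by
      rw [Nat.cast_sub (by omega), Nat.cast_sub (by omega)]; push_cast; ring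
    rw [this]; ring
  rw [h1]; ring

theorem Th_zero0 (n i : ℕ) (h1 : 1 ≤ i) (h2 : i ≤ 2*n) : (Th n).eval ((3*i : ℕ) : ℂ) = 0 := by
  unfold Th
  rw [eval_mul, eval_prod, Finset.prod_eq_zero (i := i-1) (by rw [Finset.mem_range]; omega), mul_zero]
  rw [eval_mul]
  simp only [eval_sub, eval_X, eval_C]
  rw [show 3*(i-1)+3 = 3*i by omega, sub_self, mul_zero]

theorem Th_zero2 (n i : ℕ) (h2 : i < 2*n) : (Th n).eval ((3*i+2 : ℕ) : ℂ) = 0 := by
  unfold Th
  rw [eval_mul, eval_prod, Finset.prod_eq_zero (i := i) (by rw [Finset.mem_range]; omega), mul_zero]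
  rw [eval_mul]
  simp only [eval_sub, eval_X, eval_C]
  rw [sub_self, zero_mul]

theorem mom_expand (Θ f : ℂ[X]) (n j : ℕ) (hf : f.natDegree ≤ 2*n) :
    mom Θ (X^j * expand ℂ 3 f) = ∑ i ∈ Finset.range (2*n+1), Θ.eval ((3*i+j : ℕ) : ℂ) * f.coeff i := by
  conv_lhs => rw [f.as_sum_range' (2*n+1) (by omega)]
  rw [map_sum, Finset.mul_sum, map_sum]
  apply Finset.sum_congr rfl
  intro i _
  rw [expand_monomial, X_pow_mul_monomial, mom_monomial]
  congr 3
  ring

/-- the moment of `p` with the weight `Θ` -/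
theorem mom_pp {n : ℕ} {p : ℂ[X]} (hp : p.natDegree ≤ 6*n+2) :
    mom (Th n) p = 3^(4*n+1) * Ph n (2*n+1/3) * (p.coeff (6*n+2) - p.coeff 0) +
      ∑ i ∈ Finset.range (2*n+1), 3^(4*n+1) * Ph n i * (part n 1 p).coeff i := by
  conv_lhs => rw [part_sum n p hp]
  rw [map_add, map_add]
  have e0 : mom (Th n) (expand ℂ 3 (part n 0 p)) = - (3^(4*n+1) * Ph n (2*n+1/3)) * p.coeff 0 := by
    rw [← one_mul (expand ℂ 3 (part n 0 p)), ← pow_zero X, mom_expand _ _ n 0 (part_natDegree _ _ _),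
      Finset.sum_eq_single_of_mem 0 (by simp)]
    · rw [part_coeff, if_pos (by omega)]
      have h1 := Th_eval n (-1/3)
      have h2 : Ph n (2*n - (-1/3)) = - Ph n (-1/3) := Ph_antisymm n (-1/3)
      rw [show (2*(n:ℂ) - (-1/3)) = 2*n+1/3 by ring] at h2
      have h3 : ((3*0+0 : ℕ) : ℂ) = 3 * (-1/3) + 1 := by push_cast; ring
      rw [h3, h1, h2]
      simp
    · intro i hi hne
      rw [Finset.mem_range] at hi
      rw [add_zero, Th_zero0 n i (by omega) (by omega), zero_mul]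
  have e1 : mom (Th n) (X * expand ℂ 3 (part n 1 p)) =
      ∑ i ∈ Finset.range (2*n+1), 3^(4*n+1) * Ph n i * (part n 1 p).coeff i := by
    conv_lhs => rw [← pow_one (X : ℂ[X])]
    rw [mom_expand _ _ n 1 (part_natDegree _ _ _)]
    apply Finset.sum_congr rfl
    intro i _
    rw [← Th_eval]; push_cast; rfl
  have e2 : mom (Th n) (X^2 * expand ℂ 3 (part n 2 p)) =
      3^(4*n+1) * Ph n (2*n+1/3) * p.coeff (6*n+2) := by
    rw [mom_expand _ _ n 2 (part_natDegree _ _ _), Finset.sum_eq_single_of_mem (2*n) (by simp)]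
    · rw [part_coeff, if_pos (by omega), ← Th_eval]
      congr 2
      · push_cast; ring
      · ring
    · intro i hi hne
      rw [Finset.mem_range] at hi
      rw [Th_zero2 n i (by omega), zero_mul]
  rw [e0, e1, e2]; ring

/-- THE ONE-VARIABLE THEOREM -/
theorem onevar {a b n : ℕ} (hab : a + b = 2*n) {q : ℂ} (hq : q^2 + q + 1 = 0) {G T : ℂ[X]}
    (h : Data q a b n G T) {Pa Qa Pb Qb : ℂ[X]} (ha : Pade a Pa Qa) (hb : Pade b Pb Qb) :
    2 * G.eval 1 * (Pa.coeff 0 * Pb.coeff 0 * Ph n (2*n+1/3)) =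
      T.eval 1 * (Pa.coeff 0 * Pb.coeff 0 * Ph n (2*n+1/3) -
        ∑ i ∈ Finset.range (2*n+1), (Pb * Qa).coeff i * Ph n i) := by
  have hq3 : q^3 = 1 := by
    have : q^3 - 1 = (q-1)*(q^2+q+1) := by ring
    rw [hq, mul_zero] at this; exact sub_eq_zero.mp this
  have hη : q - q^2 ≠ 0 := by
    intro h
    have h1 : q^2 = q := (sub_eq_zero.mp h).symm
    rw [h1] at hq
    have h2 : q = -1/2 := by linear_combination hq/2
    rw [h2] at h1; norm_num at h1
  have hp : (pp n G).natDegree ≤ 6*n+2 := pp_natDegree h.hG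
  have h0 : (X - 1)^(4*n+1) ∣ pp n G := ⟨(X+1)*G, by unfold pp; ring⟩
  have h0s : (X - 1)^(4*n+1) ∣ reflect (6*n+2) (pp n G) := by
    rw [pp_reflect h.hG]
    exact dvd_neg.mpr ⟨(X+1)*reflect (2*n) G, by unfold pp; ring⟩
  obtain ⟨c, hc1, hc2⟩ := NM hq (pp n G) _ hab hp rfl h0 h0s
    (odd_order (by omega) (dA_natDegree _ _ _ hp) (dA_reflect hq3 n _ hp) h.hA)
    (odd_order (by omega) (dB_natDegree _ _ _ hp) (dB_reflect hq3 n _ hp) h.hB) ha hb
  set t := T.coeff (2*n) with ht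
  -- the constant
  have hc : (q^2 - q) * t = c * (Pb.coeff 0 * Pa.coeff 0) := by
    have e := congrArg (fun f => f.coeff 0) hc2
    simp only [coeff_add, coeff_reflect, revAt_le (Nat.zero_le _), Nat.sub_zero] at e
    rw [part_coeff, part_coeff, if_pos (by omega), if_pos (by omega),
      show 3*(2*n)+2 = 6*n+2 by ring, pp_top h.hG, h.top, show 3*0+0 = 0 by rfl, pp_bot, h.bot,
      mul_coeff_zero, mul_coeff_zero, coeff_C_zero] at e
    linear_combination e
  -- the sum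
  have hS : (q - q^2) * ∑ i ∈ Finset.range (2*n+1), Ph n i * (part n 1 (pp n G)).coeff i =
      c * ∑ i ∈ Finset.range (2*n+1), (Pb * Qa).coeff i * Ph n i := by
    have e1 : ∑ i ∈ Finset.range (2*n+1), Ph n i * (reflect (2*n) (part n 1 (pp n G))).coeff i =
        - ∑ i ∈ Finset.range (2*n+1), Ph n i * (part n 1 (pp n G)).coeff i := by
      rw [← Finset.sum_range_reflect, ← Finset.sum_neg_distrib]
      apply Finset.sum_congr rfl
      intro i hi
      rw [Finset.mem_range] at hi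
      rw [coeff_reflect, revAt_le (by omega), show 2*n - (2*n+1-1-i) = i by omega]
      have : ((2*n+1-1-i : ℕ) : ℂ) = 2*n - i := by
        rw [show 2*n+1-1-i = 2*n - i by omega, Nat.cast_sub (by omega)]; push_cast; ring
      rw [this, Ph_antisymm]; ring
    have e2 : ∑ i ∈ Finset.range (2*n+1), Ph n i * (C q * part n 1 (pp n G) +
        C (q^2) * reflect (2*n) (part n 1 (pp n G))).coeff i =
        c * ∑ i ∈ Finset.range (2*n+1), (Pb * Qa).coeff i * Ph n i := by
      rw [hc1, Finset.mul_sum]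
      apply Finset.sum_congr rfl
      intro i _
      rw [mul_assoc, coeff_C_mul]; ring
    rw [← e2]
    simp only [coeff_add, coeff_C_mul, mul_add, Finset.sum_add_distrib]
    have e3 : ∑ i ∈ Finset.range (2*n+1), Ph n i * (q^2 * (reflect (2*n) (part n 1 (pp n G))).coeff i)
        = q^2 * ∑ i ∈ Finset.range (2*n+1), Ph n i * (reflect (2*n) (part n 1 (pp n G))).coeff i := by
      rw [Finset.mul_sum]; exact Finset.sum_congr rfl fun i _ => by ring
    have e4 : ∑ i ∈ Finset.range (2*n+1), Ph n i * (q * (part n 1 (pp n G)).coeff i)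
        = q * ∑ i ∈ Finset.range (2*n+1), Ph n i * (part n 1 (pp n G)).coeff i := by
      rw [Finset.mul_sum]; exact Finset.sum_congr rfl fun i _ => by ring
    rw [e3, e4, e1]; ring
  -- moments
  have mG : mom (Th n) (pp n G) = ((4*n+1).factorial : ℂ) * (2 * G.eval 1) := by
    have : pp n G = (X - 1)^(4*n+1) * ((X+1) * G) := by unfold pp; ring
    rw [this, moment (4*n+1) _ _ (Th_natDegree n).le, Th_top]
    simp only [eval_mul, eval_add, eval_X, eval_one]; ring
  have mT : mom (Th n) (pp n T) = ((4*n+1).factorial : ℂ) * (2 * T.eval 1) := by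
    have : pp n T = (X - 1)^(4*n+1) * ((X+1) * T) := by unfold pp; ring
    rw [this, moment (4*n+1) _ _ (Th_natDegree n).le, Th_top]
    simp only [eval_mul, eval_add, eval_X, eval_one]; ring
  rw [mom_pp hp, pp_top h.hG, pp_bot, h.top, h.bot] at mG
  rw [mom_pp (pp_natDegree h.hT), pp_top h.hT, pp_bot] at mT
  have hT0 : T.coeff 0 = t := by
    have := congrArg (fun f => f.coeff 0) h.hTs
    simp only [coeff_reflect, revAt_le (Nat.zero_le _), Nat.sub_zero] at this
    rw [ht, this]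
  have hT1 : ∑ i ∈ Finset.range (2*n+1), 3^(4*n+1) * Ph n i * (part n 1 (pp n T)).coeff i = 0 := by
    apply Finset.sum_eq_zero
    intro i hi
    rw [part_coeff, if_pos (Finset.mem_range.mp hi), h.hT3 _ (by omega), mul_zero]
  rw [hT1, hT0, add_zero] at mT
  have hsum3 : ∑ i ∈ Finset.range (2*n+1), (3:ℂ)^(4*n+1) * Ph n i * (part n 1 (pp n G)).coeff i =
      3^(4*n+1) * ∑ i ∈ Finset.range (2*n+1), Ph n i * (part n 1 (pp n G)).coeff i := by
    rw [Finset.mul_sum]; exact Finset.sum_congr rfl fun i _ => by ring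
  rw [hsum3] at mG
  set S := ∑ i ∈ Finset.range (2*n+1), Ph n i * (part n 1 (pp n G)).coeff i with hSdef
  set S' := ∑ i ∈ Finset.range (2*n+1), (Pb * Qa).coeff i * Ph n i with hS'def
  set F : ℂ := ((4*n+1).factorial : ℂ) with hF
  have hF0 : F ≠ 0 := by rw [hF]; exact_mod_cast (Nat.factorial_ne_zero _)
  have h30 : (3:ℂ)^(4*n+1) ≠ 0 := pow_ne_zero _ (by norm_num)
  set w := (3:ℂ)^(4*n+1) with hw
  set P3 := Ph n (2*n+1/3) with hP3
  -- mG : w * P3 * (-q t - -(-q² t)) + w * S = F * (2 G(1)),  mT : w P3 (t - - t) = F (2 T(1))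
  -- hc : (q²-q) t = c PbPa, hS : (q - q²) S = c S'
  have key : F * (q - q^2) * (2 * G.eval 1 * (Pa.coeff 0 * Pb.coeff 0 * P3)) =
      F * (q - q^2) * (T.eval 1 * (Pa.coeff 0 * Pb.coeff 0 * P3 - S')) := by
    linear_combination (-((q - q^2) * (Pa.coeff 0 * Pb.coeff 0) * P3)) * mG +
      (1/2) * (q - q^2) * (Pa.coeff 0 * Pb.coeff 0 * P3 - S') * mT -
      (q - q^2) * (Pa.coeff 0 * Pb.coeff 0) * P3 * w * P3 * t * hq +
      Pa.coeff 0 * Pb.coeff 0 * P3 * w * hS - S' * w * P3 * hc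
  exact mul_left_cancel₀ (mul_ne_zero hF0 hη) key

end Pool.Agent.H136R2.Cardy
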