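import Pool.Agent.H136R2.Cardy.Main
import Pool.Agent.H136R2.Cardy.Kap
import Pool.Agent.H31C.Stubs

/-!
Block ONEVAR of room CARDY: `Pool.Agent.H31C.S_ONE`.
-/

namespace Pool.Agent.H136R2.Cardy

open Polynomial H337CB

/-- the embedding of `ℚ[X]` -/
noncomputable def up (f : ℚ[X]) : ℂ[X] := f.map (algebraMap ℚ ℂ)

theorem up_coeff (f : ℚ[X]) (i : ℕ) : (up f).coeff i = ((f.coeff i : ℚ) : ℂ) := by
  unfold up; rw [coeff_map]; simp

theorem up_natDegree (f : ℚ[X]) (m : ℕ) (h : f.natDegree ≤ m) : (up f).natDegree ≤ m :=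
  natDegree_map_le.trans h

theorem up_reflect (f : ℚ[X]) (m : ℕ) : up (reflect m f) = reflect m (up f) := by
  ext i; rw [up_coeff, coeff_reflect, coeff_reflect, up_coeff]

theorem P_eval_one (n : ℕ) : 0 < (H337CB.P n).eval 1 := by
  have key : ∀ n, 0 < (H337CB.P n).eval 1 ∧ 0 < (H337CB.P (n+1)).eval 1 := by
    intro n
    induction n with
    | zero => rw [P_zero, zero_add, P_one]; norm_num
    | succ n ih =>
      refine ⟨ih.2, ?_⟩
      have h := congrArg (fun f => f.eval 1) (P_rec n)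
      simp only [eval_mul, eval_add, eval_sub, eval_X, eval_one, eval_natCast, eval_ofNat,
        eval_pow, sub_self] at h
      have h2 : (3 * (n:ℚ) + 5) * (H337CB.P (n+2)).eval 1 = (6*n+9)*2*(H337CB.P (n+1)).eval 1 := by
        rw [h]; ring
      have h3 : 0 < (3 * (n:ℚ) + 5) := by positivity
      have h4 : 0 < (6*(n:ℚ)+9)*2*(H337CB.P (n+1)).eval 1 := by
        have := ih.2; positivity
      rw [← h2] at h4
      exact (pos_iff_pos_of_mul_pos h4).mp h3
  exact (key n).1

theorem padeC (m : ℕ) : Pade m (up (H337CB.P m)) (up (H337CB.Ps m)) where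
  degP := up_natDegree _ _ (natDegree_P_le m)
  refl := by rw [← up_reflect, reflect_P]
  c0 := by
    rw [up_coeff, coeff_zero_eq_eval_zero, eval_zero_P]; norm_num
  e1 := by
    unfold up
    rw [← map_one (algebraMap ℚ ℂ), eval_map_apply]
    have := P_eval_one m
    simpa using this.ne'
  dvd := by
    have h := pade m
    have h2 := Polynomial.map_dvd (algebraMap ℚ ℂ) h
    unfold E at h2
    simp only [Polynomial.map_pow, Polynomial.map_sub, Polynomial.map_mul, map_X, Polynomial.map_one,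
      map_comp] at h2
    rw [expand_eq_comp_X_pow, expand_eq_comp_X_pow]
    unfold up
    have h3 := dvd_neg.mpr h2
    rw [neg_sub] at h3
    exact h3

theorem c0_one (m : ℕ) : (up (H337CB.P m)).coeff 0 = 1 := by
  rw [up_coeff, coeff_zero_eq_eval_zero, eval_zero_P]; norm_num

theorem Ph_cast (n : ℕ) (x : ℚ) : Ph n (x:ℂ) = ((PhQ n x : ℚ) : ℂ) := by
  unfold Ph PhQ; push_cast; rfl

theorem PhQ_ne (n : ℕ) : PhQ n (2*n + 1/3) ≠ 0 := by
  unfold PhQ
  apply mul_ne_zero
  · have : (2*(n:ℚ) + 1/3 - n) = n + 1/3 := by ring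
    rw [this]; positivity
  · rw [Finset.prod_ne_zero_iff]
    intro m hm
    rw [Finset.mem_range] at hm
    have h1 : (m:ℚ) + 1 ≤ 2*n := by exact_mod_cast hm
    apply mul_ne_zero
    · have : (0:ℚ) < 2*(n:ℚ) + 1/3 - m - 1/3 := by linarith
      exact this.ne'
    · have : (0:ℚ) < 2*(n:ℚ) + 1/3 - m - 2/3 := by linarith
      exact this.ne'

/-- the value in closed form -/
theorem value {a b n : ℕ} (hab : a + b = 2*n) {q : ℂ} (hq : q^2 + q + 1 = 0) {G T : ℂ[X]}
    (h : Data q a b n G T) :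
    G.eval 1 = ((Pool.Agent.H28R2.Cardy.Qs (a+b+1) a : ℚ) : ℂ) * T.eval 1 := by
  have h1 := onevar hab hq h (padeC a) (padeC b)
  rw [c0_one, c0_one, one_mul, one_mul] at h1
  have h2 : Ph n (2*n+1/3) = ((PhQ n (2*n+1/3) : ℚ) : ℂ) := by
    rw [← Ph_cast]; push_cast; rfl
  have h3 : ∑ i ∈ Finset.range (2*n+1), (up (H337CB.P b) * up (H337CB.Ps a)).coeff i * Ph n i =
      ((PhQ n (2*n+1/3) * M (2*n+1) (H337CB.P b * H337CB.Ps a) : ℚ) : ℂ) := by
    rw [M_weight n _ (natDegree_mul_le.trans (by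
      have := natDegree_P_le b; have := natDegree_Ps_le a; omega))]
    push_cast
    apply Finset.sum_congr rfl
    intro i _
    have e1 : up (H337CB.P b) * up (H337CB.Ps a) = up (H337CB.P b * H337CB.Ps a) := by
      unfold up; rw [Polynomial.map_mul]
    rw [e1, up_coeff]
    congr 1
    have := Ph_cast n (i:ℚ)
    push_cast at this
    exact this
  have h4 : M (2*n+1) (H337CB.P b * H337CB.Ps a) = 1 - 2 * Pool.Agent.H28R2.Cardy.Qs (a+b+1) a := by
    have e := Pool.Agent.H28R2.Cardy.M_eq ladder hr hanti a b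
    have e2 := hanti b a
    rw [e] at e2
    rw [← hab]
    have e3 : M (a + b + 1) (H337CB.P b * H337CB.Ps a) = Pool.Agent.H28R2.Cardy.M H337CB.P H337CB.Ps b a := by
      unfold M Pool.Agent.H28R2.Cardy.M
      rw [Rs_eq_R, show 2 * (a + b + 1) - 1 = 2 * b + 2 * a + 1 by omega, mul_assoc,
        show b + a + 1 = a + b + 1 by ring]
    rw [e3, e2]; ring
  rw [h3, h4, h2] at h1
  have h5 : ((PhQ n (2*n+1/3) : ℚ) : ℂ) ≠ 0 := by exact_mod_cast PhQ_ne n
  have h6 : (2 : ℂ) * ((PhQ n (2*n+1/3) : ℚ) : ℂ) ≠ 0 := mul_ne_zero two_ne_zero h5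
  apply mul_left_cancel₀ h6
  push_cast at h1 ⊢
  linear_combination h1

theorem bw_cast (L k : ℕ) : Pool.Agent.H31C.bw L k = ((Pool.Agent.H28R2.Cardy.W L k : ℚ) : ℝ) := by
  unfold Pool.Agent.H31C.bw Pool.Agent.H28R2.Cardy.W Pool.Agent.H31C.ris Pool.Agent.H28R2.Cardy.rf
  push_cast; rfl

theorem reflect_comp (N : ℕ) (c : ℂ) (f : ℂ[X]) (i : ℕ) (hi : i ≤ N) :
    (reflect N (f.comp (C c * X))).coeff i = f.coeff (N - i) * c^(N-i) := by
  rw [coeff_reflect, revAt_le hi, comp_coeff']

/-- BLOCK ONEVAR -/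
theorem s_one : Pool.Agent.H31C.S_ONE := by
  intro a b p t ha hb h
  obtain ⟨n, hn⟩ : ∃ n, a + b = 2*n := by
    obtain ⟨x, rfl⟩ := ha; obtain ⟨y, rfl⟩ := hb; exact ⟨x+y+1, by ring⟩
  have hq := Pool.Agent.H988R2.Perc.q_spec
  have hq3 := Pool.Agent.H988R2.Perc.q_cube
  have hN : 3*(a+b)+2 = 6*n+2 := by omega
  have hGam : ∀ f : ℂ[X], Pool.Agent.H31C.Gam a b f = pp n f := by
    intro f
    unfold Pool.Agent.H31C.Gam pp
    rw [show 2*(a+b) = 4*n by omega]; ring
  have hpd : p.natDegree ≤ 2*n := by rw [← hn]; exact h.pdeg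
  have htd : t.natDegree ≤ 2*n := by rw [← hn]; exact h.tdeg
  have hsym : reflect (2*n) t = t := by
    have h1 := h.odd
    rw [hGam, hN, pp_reflect htd, neg_inj] at h1
    unfold pp at h1
    exact mul_left_cancel₀ (pre_monic n).ne_zero h1
  have ht0 : t.coeff 0 = t.coeff (2*n) := by
    have := congrArg (fun f => f.coeff 0) hsym
    simp only [coeff_reflect, revAt_le (Nat.zero_le _), Nat.sub_zero] at this
    exact this.symm
  have hdat : Data Pool.Agent.H988R2.Perc.q a b n p t := by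
    refine ⟨hpd, htd, hsym, ?_, ?_, ?_, ?_, ?_, ?_⟩
    · intro k hk; rw [← hGam]; exact h.lac k hk
    · rw [← hn]; exact h.ne
    · rw [← hn]; exact h.top
    · rw [← ht0]; exact h.bot
    · have e : dA Pool.Agent.H988R2.Perc.q n (pp n p) = C Pool.Agent.H988R2.Perc.q *
          Pool.Agent.H31C.anti (6*n+2) (Pool.Agent.H988R2.Perc.q^2) (pp n p) := by
        have hpp := pp_natDegree hpd
        ext i
        unfold dA Pool.Agent.H31C.anti
        rw [coeff_sub, coeff_C_mul, coeff_C_mul, coeff_C_mul, coeff_sub, comp_coeff', comp_coeff']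
        by_cases hi : i ≤ 6*n+2
        · rw [reflect_comp _ _ _ _ hi, coeff_reflect, revAt_le hi]
          have e2 : Pool.Agent.H988R2.Perc.q^2 * Pool.Agent.H988R2.Perc.q^i =
              Pool.Agent.H988R2.Perc.q * (Pool.Agent.H988R2.Perc.q^2)^(6*n+2-i) := by
            rw [← pow_mul, ← pow_succ', ← pow_add]
            exact qpow hq3 (by omega)
          linear_combination (-(pp n p).coeff (6*n+2-i)) * e2
        · rw [coeff_reflect, coeff_reflect, revAt_eq_self_of_lt (by omega), comp_coeff',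
            coeff_eq_zero_of_natDegree_lt (by omega)]
          ring
      rw [e, ← hN, ← hGam]
      exact ((pow_dvd_pow _ (by omega)).trans h.left).mul_left _
    · have e : dB Pool.Agent.H988R2.Perc.q n (pp n p) = C (Pool.Agent.H988R2.Perc.q^2) *
          Pool.Agent.H31C.anti (6*n+2) (Pool.Agent.H988R2.Perc.q) (pp n p) := by
        have hpp := pp_natDegree hpd
        ext i
        unfold dB Pool.Agent.H31C.anti
        rw [coeff_sub, coeff_C_mul, coeff_C_mul, coeff_C_mul, coeff_sub, comp_coeff', comp_coeff']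
        by_cases hi : i ≤ 6*n+2
        · rw [reflect_comp _ _ _ _ hi, coeff_reflect, revAt_le hi]
          have e2 : Pool.Agent.H988R2.Perc.q * (Pool.Agent.H988R2.Perc.q^2)^i =
              Pool.Agent.H988R2.Perc.q^2 * (Pool.Agent.H988R2.Perc.q)^(6*n+2-i) := by
            rw [← pow_mul, ← pow_succ', ← pow_add]
            exact qpow hq3 (by omega)
          linear_combination (-(pp n p).coeff (6*n+2-i)) * e2
        · rw [coeff_reflect, coeff_reflect, revAt_eq_self_of_lt (by omega), comp_coeff',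
            coeff_eq_zero_of_natDegree_lt (by omega)]
          ring
      rw [e, ← hN, ← hGam]
      exact ((pow_dvd_pow _ (by omega)).trans h.right).mul_left _
  rw [value hn hq hdat]
  congr 1
  unfold Pool.Agent.H28R2.Cardy.Qs
  push_cast
  apply Finset.sum_congr rfl
  intro k _
  rw [bw_cast]
  simp

end Pool.Agent.H136R2.Cardy
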