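import Pool.Agent.H136R2.Cardy.One
import Pool.Agent.H31C.Stubs2

/-!
Block ONEVAR of room CARDY in the final form `Pool.Agent.H31C.S_136`.
-/

namespace Pool.Agent.H136R2.Cardy

open Polynomial

theorem s_136 : Pool.Agent.H31C.S_136 := by
  intro a b n G T _ _ hn h
  rw [value hn Pool.Agent.H988R2.Perc.q_spec h]
  congr 1
  unfold Pool.Agent.H28R2.Cardy.Qs
  push_cast
  apply Finset.sum_congr rfl
  intro k _
  rw [bw_cast]
  simp

end Pool.Agent.H136R2.Cardy
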