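import Pool.Agent.H136R2.Cardy.Basic

/-!
Padé pairs of `s^{1/3}` at `s = 1` and the uniqueness theorem of the one-variable problem.
-/

namespace Pool.Agent.H136R2.Cardy

open Polynomial

/-- `(P, Q)` is the Padé pair of order `m`: `P(W^3) - W Q(W^3) = O((W-1)^(2m+1))`. -/
structure Pade (m : ℕ) (P Q : ℂ[X]) : Prop where
  degP : P.natDegree ≤ m
  refl : Q = reflect m P
  c0 : P.coeff 0 ≠ 0
  e1 : P.eval 1 ≠ 0
  dvd : (X - 1)^(2*m+1) ∣ expand ℂ 3 P - X * expand ℂ 3 Q

theorem natDegree_reflect_le' (m : ℕ) (P : ℂ[X]) (h : P.natDegree ≤ m) :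
    (reflect m P).natDegree ≤ m := by
  rw [Polynomial.natDegree_le_iff_coeff_eq_zero]
  intro i hi
  rw [coeff_reflect, revAt_eq_self_of_lt hi]
  exact coeff_eq_zero_of_natDegree_lt (by omega)

theorem eval_one_reflect (m : ℕ) (P : ℂ[X]) (h : P.natDegree ≤ m) :
    (reflect m P).eval 1 = P.eval 1 := by
  let _ : Invertible (1 : ℂ) := invertibleOne
  have := eval₂_reflect_mul_pow (RingHom.id ℂ) (1 : ℂ) m P h
  simpa [eval₂_id] using this

theorem isCoprime_X_sub_one_pow {k : ℕ} {h : ℂ[X]} (h1 : h.eval 1 ≠ 0) :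
    IsCoprime ((X - 1 : ℂ[X])^k) h := by
  apply IsCoprime.pow_left
  have hirr : Irreducible (X - C (1:ℂ)) := irreducible_X_sub_C 1
  rw [← C_1]
  rw [hirr.coprime_iff_not_dvd, dvd_iff_isRoot]
  exact h1

theorem expand_zero {k : ℕ} {f : ℂ[X]} (hf : f.natDegree < k) (hd : (X - 1)^k ∣ expand ℂ 3 f) :
    f = 0 := by
  have h0 : expand ℂ 3 f = 0 := by
    apply van ((Finset.range k).image (fun i => 3 * i)) _ _ hd
    · intro j hj
      rw [coeff_expand (by norm_num)] at hj
      split_ifs at hj with h3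
      · rw [Finset.mem_image]
        refine ⟨j/3, ?_, Nat.mul_div_cancel' h3⟩
        rw [Finset.mem_range]
        exact lt_of_le_of_lt (le_natDegree_of_ne_zero hj) hf
      · exact absurd rfl hj
    · refine Finset.card_image_le.trans ?_
      simp
  exact (expand_eq_zero (by norm_num)).mp h0

namespace Pade

variable {m : ℕ} {P Q : ℂ[X]}

theorem degQ (h : Pade m P Q) : Q.natDegree ≤ m := by
  rw [h.refl]; exact natDegree_reflect_le' m P h.degP

theorem topQ (h : Pade m P Q) : Q.coeff m = P.coeff 0 := by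
  rw [h.refl, coeff_reflect, revAt_le le_rfl, Nat.sub_self]

theorem natDegQ (h : Pade m P Q) : Q.natDegree = m :=
  le_antisymm h.degQ (le_natDegree_of_ne_zero (by rw [h.topQ]; exact h.c0))

theorem Qe1 (h : Pade m P Q) : Q.eval 1 ≠ 0 := by
  rw [h.refl, eval_one_reflect m P h.degP]; exact h.e1

theorem Qne (h : Pade m P Q) : Q ≠ 0 := by
  intro h0; exact h.Qe1 (by rw [h0]; simp)

theorem Pne (h : Pade m P Q) : P ≠ 0 := by
  intro h0; exact h.e1 (by rw [h0]; simp)

theorem coprime (h : Pade m P Q) : IsCoprime P Q := by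
  rw [Polynomial.isCoprime_iff_aeval_ne_zero_of_isAlgClosed (k := ℂ) (K := ℂ)]
  intro r
  by_contra hcon
  push Not at hcon
  obtain ⟨h1, h2⟩ := hcon
  rw [coe_aeval_eq_eval] at h1 h2
  obtain ⟨P', hP'⟩ := dvd_iff_isRoot.mpr (show P.IsRoot r from h1)
  obtain ⟨Q', hQ'⟩ := dvd_iff_isRoot.mpr (show Q.IsRoot r from h2)
  have hr : (1 : ℂ) - r ≠ 0 := by
    intro h3
    apply h.e1
    rw [hP', eval_mul]; simp [h3]
  have hPd : P'.natDegree + 1 ≤ m := by
    have hne : P' ≠ 0 := by rintro rfl; exact h.Pne (by rw [hP', mul_zero])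
    have := h.degP
    rw [hP', natDegree_mul (X_sub_C_ne_zero r) hne, natDegree_X_sub_C] at this
    omega
  have hQd : Q'.natDegree + 1 ≤ m := by
    have hne : Q' ≠ 0 := by rintro rfl; exact h.Qne (by rw [hQ', mul_zero])
    have := h.degQ
    rw [hQ', natDegree_mul (X_sub_C_ne_zero r) hne, natDegree_X_sub_C] at this
    omega
  have hd : (X - 1)^(2*m+1) ∣ expand ℂ 3 P' - X * expand ℂ 3 Q' := by
    have h3 := h.dvd
    rw [hP', hQ', map_mul, map_mul,
      show expand ℂ 3 (X - C r) * expand ℂ 3 P' - X * (expand ℂ 3 (X - C r) * expand ℂ 3 Q')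
        = expand ℂ 3 (X - C r) * (expand ℂ 3 P' - X * expand ℂ 3 Q') by ring] at h3
    refine (isCoprime_X_sub_one_pow ?_).dvd_of_dvd_mul_left h3
    rw [expand_eval]; simpa using hr
  have h0 : expand ℂ 3 P' - X * expand ℂ 3 Q' = 0 := by
    apply van ((Finset.range m).image (fun i => 3 * i) ∪ (Finset.range m).image (fun i => 3 * i + 1))
      _ _ hd
    · intro j hj
      rw [Finset.mem_union, Finset.mem_image, Finset.mem_image]
      rw [coeff_sub] at hj
      by_cases hc : (expand ℂ 3 P').coeff j = 0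
      · right
        rw [hc, zero_sub, neg_ne_zero] at hj
        rcases j with _ | j
        · simp at hj
        · rw [coeff_X_mul, coeff_expand (by norm_num)] at hj
          split_ifs at hj with h3
          · refine ⟨j/3, ?_, by omega⟩
            rw [Finset.mem_range]
            have := le_natDegree_of_ne_zero hj
            omega
          · exact absurd rfl hj
      · left
        rw [coeff_expand (by norm_num)] at hc
        split_ifs at hc with h3
        · refine ⟨j/3, ?_, by omega⟩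
          rw [Finset.mem_range]
          have := le_natDegree_of_ne_zero hc
          omega
        · exact absurd rfl hc
    · refine (Finset.card_union_le _ _).trans ?_
      have h1 : ((Finset.range m).image (fun i => 3 * i)).card ≤ m :=
        Finset.card_image_le.trans (by simp)
      have h2 : ((Finset.range m).image (fun i => 3 * i + 1)).card ≤ m :=
        Finset.card_image_le.trans (by simp)
      omega
  -- so P' = 0
  have hP0 : P' = 0 := by
    ext i
    have h4 := congrArg (fun f => f.coeff (3*i)) h0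
    simp only [coeff_sub, coeff_zero] at h4
    rw [coeff_expand_mul' (by norm_num)] at h4
    have h5 : (X * expand ℂ 3 Q').coeff (3*i) = 0 := by
      rcases i with _ | i
      · simp
      · rw [show 3 * (i+1) = (3*i+2) + 1 by ring, coeff_X_mul, coeff_expand (by norm_num), if_neg]
        omega
    rw [h5, sub_zero] at h4
    simpa using h4
  exact h.Pne (by rw [hP', hP0, mul_zero])

end Pade

/-- The uniqueness theorem. -/
theorem uniq {a b n : ℕ} (hab : a + b = 2 * n) {Pa Qa Pb Qb N M : ℂ[X]}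
    (ha : Pade a Pa Qa) (hb : Pade b Pb Qb) (hN : N.natDegree ≤ 2*n) (hM : M.natDegree ≤ 2*n)
    (h1 : (X - 1)^(2*a+1) ∣ X * expand ℂ 3 N - expand ℂ 3 M)
    (h2 : (X - 1)^(2*b+1) ∣ X * expand ℂ 3 N - X^2 * expand ℂ 3 (reflect (2*n) M))
    (h3 : (X - 1)^(4*n+1) ∣ X * (expand ℂ 3 N + expand ℂ 3 (reflect (2*n) N)) - expand ℂ 3 M
      - X^2 * expand ℂ 3 (reflect (2*n) M)) :
    ∃ c : ℂ, N = C c * Pb * Qa ∧ M = C c * Pb * Pa := by
  classical
  have hX : IsCoprime ((X - 1 : ℂ[X])^(4*n+1)) X := isCoprime_X_sub_one_pow (by simp)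
  have hXa : IsCoprime ((X - 1 : ℂ[X])^(2*a+1)) X := isCoprime_X_sub_one_pow (by simp)
  have hXb : IsCoprime ((X - 1 : ℂ[X])^(2*b+1)) X := isCoprime_X_sub_one_pow (by simp)
  set Ns := reflect (2*n) N with hNs
  set Ms := reflect (2*n) M with hMs
  have hNsd : Ns.natDegree ≤ 2*n := natDegree_reflect_le' _ _ hN
  have hMsd : Ms.natDegree ≤ 2*n := natDegree_reflect_le' _ _ hM
  -- the polarised identity
  have hF : Qb * (N * Pa - M * Qa) + Pb * (Ns * Qa - Ms * Pa) = 0 := by
    apply expand_zero (k := 4*n+1)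
    · have e1 : (Qb * (N * Pa - M * Qa)).natDegree ≤ 4*n := by
        refine natDegree_mul_le.trans ?_
        have : (N * Pa - M * Qa).natDegree ≤ 2*n + a := by
          refine (natDegree_sub_le _ _).trans (max_le ?_ ?_)
          · exact natDegree_mul_le.trans (add_le_add hN ha.degP)
          · exact natDegree_mul_le.trans (add_le_add hM ha.degQ)
        have := hb.degQ
        omega
      have e2 : (Pb * (Ns * Qa - Ms * Pa)).natDegree ≤ 4*n := by
        refine natDegree_mul_le.trans ?_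
        have : (Ns * Qa - Ms * Pa).natDegree ≤ 2*n + a := by
          refine (natDegree_sub_le _ _).trans (max_le ?_ ?_)
          · exact natDegree_mul_le.trans (add_le_add hNsd ha.degQ)
          · exact natDegree_mul_le.trans (add_le_add hMsd ha.degP)
        have := hb.degP
        omega
      have := natDegree_add_le (Qb * (N * Pa - M * Qa)) (Pb * (Ns * Qa - Ms * Pa))
      omega
    · apply hX.dvd_of_dvd_mul_left
      simp only [map_add, map_mul, map_sub]
      have hda := ha.dvd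
      have hdb := hb.dvd
      generalize expand ℂ 3 N = n1 at *
      generalize expand ℂ 3 M = m1 at *
      generalize expand ℂ 3 Ns = n2 at *
      generalize expand ℂ 3 Ms = m2 at *
      generalize expand ℂ 3 Pa = pa at *
      generalize expand ℂ 3 Qa = qa at *
      generalize expand ℂ 3 Pb = pb at *
      generalize expand ℂ 3 Qb = qb at *
      have key : X * (qb * (n1 * pa - m1 * qa) + pb * (n2 * qa - m2 * pa)) =
          (pa - X * qa) * (X * n1 - X^2 * m2) * qb
          - (pa - X * qa) * (pb - X * qb) * (X * m2)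
          - (X * n1 - m1) * (pb - X * qb) * qa
          + (X * (n1 + n2) - m1 - X^2 * m2) * (pb * qa) := by ring
      rw [key]
      have t1 : (X - 1 : ℂ[X])^(4*n+1) ∣ (pa - X * qa) * (X * n1 - X^2 * m2) := by
        refine (pow_dvd_pow _ (show 4*n+1 ≤ (2*a+1) + (2*b+1) by omega)).trans ?_
        rw [pow_add]; exact mul_dvd_mul hda h2
      have t2 : (X - 1 : ℂ[X])^(4*n+1) ∣ (pa - X * qa) * (pb - X * qb) := by
        refine (pow_dvd_pow _ (show 4*n+1 ≤ (2*a+1) + (2*b+1) by omega)).trans ?_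
        rw [pow_add]; exact mul_dvd_mul hda hdb
      have t3 : (X - 1 : ℂ[X])^(4*n+1) ∣ (X * n1 - m1) * (pb - X * qb) := by
        refine (pow_dvd_pow _ (show 4*n+1 ≤ (2*a+1) + (2*b+1) by omega)).trans ?_
        rw [pow_add]; exact mul_dvd_mul h1 hdb
      exact dvd_add (dvd_sub (dvd_sub (t1.mul_right _) (t2.mul_right _)) (t3.mul_right _))
        (h3.mul_right _)
  -- Pb divides N Pa - M Qa
  obtain ⟨Y, hY⟩ : Pb ∣ N * Pa - M * Qa := by
    refine hb.coprime.dvd_of_dvd_mul_left ⟨-(Ns * Qa - Ms * Pa), ?_⟩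
    linear_combination hF
  have hY0 : Y = 0 := by
    by_contra hYne
    have hV : Ns * Qa - Ms * Pa = - (Qb * Y) := by
      apply mul_left_cancel₀ hb.Pne
      linear_combination hF - Qb * hY
    have hdegV : (Qb * Y).natDegree ≤ 2*n + a := by
      rw [← natDegree_neg, ← hV]
      refine (natDegree_sub_le _ _).trans (max_le ?_ ?_)
      · exact natDegree_mul_le.trans (add_le_add hNsd ha.degQ)
      · exact natDegree_mul_le.trans (add_le_add hMsd ha.degP)
    rw [natDegree_mul hb.Qne hYne, hb.natDegQ] at hdegV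
    apply hYne
    apply expand_zero (k := 2*a+1) (by omega)
    have hu : (X - 1 : ℂ[X])^(2*a+1) ∣ expand ℂ 3 Pb * expand ℂ 3 Y := by
      rw [← map_mul, ← hY]
      apply hXa.dvd_of_dvd_mul_left
      simp only [map_sub, map_mul]
      rw [show X * (expand ℂ 3 N * expand ℂ 3 Pa - expand ℂ 3 M * expand ℂ 3 Qa) =
        (expand ℂ 3 Pa - X * expand ℂ 3 Qa) * (X * expand ℂ 3 N) +
        (X * expand ℂ 3 N - expand ℂ 3 M) * (X * expand ℂ 3 Qa) by ring]
      exact dvd_add (ha.dvd.mul_right _) (h1.mul_right _)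
    refine (isCoprime_X_sub_one_pow ?_).dvd_of_dvd_mul_left hu
    rw [expand_eval, one_pow]; exact hb.e1
  rw [hY0, mul_zero, sub_eq_zero] at hY
  -- N = Qa Z, M = Pa Z
  obtain ⟨Z, hZ⟩ : Qa ∣ N := by
    refine ha.coprime.symm.dvd_of_dvd_mul_right ⟨M, ?_⟩
    rw [hY]; ring
  have hMZ : M = Pa * Z := by
    apply mul_right_cancel₀ ha.Qne
    rw [← hY, hZ]; ring
  have hZd : Z.natDegree ≤ b := by
    by_cases hZ0 : Z = 0
    · rw [hZ0]; simp
    · rw [hZ, natDegree_mul ha.Qne hZ0, ha.natDegQ] at hN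
      omega
  set Zs := reflect b Z with hZs
  have hZsd : Zs.natDegree ≤ b := natDegree_reflect_le' _ _ hZd
  have hMs' : Ms = Qa * Zs := by
    rw [hMs, hMZ, ← hab, reflect_mul _ _ ha.degP hZd, ← ha.refl]
  have hZ2 : (X - 1 : ℂ[X])^(2*b+1) ∣ expand ℂ 3 Z - X * expand ℂ 3 Zs := by
    have h4 := h2
    rw [hMs', hZ, map_mul, map_mul, show X * (expand ℂ 3 Qa * expand ℂ 3 Z) -
      X^2 * (expand ℂ 3 Qa * expand ℂ 3 Zs) = (X * expand ℂ 3 Qa) *
      (expand ℂ 3 Z - X * expand ℂ 3 Zs) by ring] at h4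
    refine (isCoprime_X_sub_one_pow ?_).dvd_of_dvd_mul_left h4
    rw [eval_mul, eval_X, one_mul, expand_eval, one_pow]; exact ha.Qe1
  have hZ3 : Z * Qb - Zs * Pb = 0 := by
    apply expand_zero (k := 2*b+1)
    · have e1 : (Z * Qb).natDegree ≤ 2*b :=
        natDegree_mul_le.trans (by have := hb.degQ; omega)
      have e2 : (Zs * Pb).natDegree ≤ 2*b :=
        natDegree_mul_le.trans (by have := hb.degP; omega)
      have := natDegree_sub_le (Z * Qb) (Zs * Pb)
      omega
    · simp only [map_sub, map_mul]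
      rw [show expand ℂ 3 Z * expand ℂ 3 Qb - expand ℂ 3 Zs * expand ℂ 3 Pb =
        (expand ℂ 3 Z - X * expand ℂ 3 Zs) * expand ℂ 3 Qb -
        (expand ℂ 3 Pb - X * expand ℂ 3 Qb) * expand ℂ 3 Zs by ring]
      exact dvd_sub (hZ2.mul_right _) (hb.dvd.mul_right _)
  obtain ⟨Y', hY'⟩ : Pb ∣ Z := by
    refine hb.coprime.dvd_of_dvd_mul_right ⟨Zs, ?_⟩
    linear_combination hZ3
  have hZsY : Zs = Qb * Y' := by
    apply mul_right_cancel₀ hb.Pne
    rw [hY'] at hZ3
    linear_combination -hZ3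
  have hY'd : Y'.natDegree = 0 := by
    by_cases hY0 : Y' = 0
    · rw [hY0]; simp
    · rw [hZsY, natDegree_mul hb.Qne hY0, hb.natDegQ] at hZsd
      omega
  obtain ⟨c, hc⟩ := natDegree_eq_zero.mp hY'd
  refine ⟨c, ?_, ?_⟩
  · rw [hZ, hY', ← hc]; ring
  · rw [hMZ, hY', ← hc]; ring

end Pool.Agent.H136R2.Cardy
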