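import Pool.Agent.H136R2.Cardy.Defs
import Pool.Agent.H136R2.Cardy.Uniq

/-!
The one-variable theorem: from the reflection relations to the explicit value.
-/

namespace Pool.Agent.H136R2.Cardy

open Polynomial

/-- the part of `p` with exponents `≡ j mod 3` -/
noncomputable def part (n j : ℕ) (p : ℂ[X]) : ℂ[X] :=
  ∑ i ∈ Finset.range (2*n+1), C (p.coeff (3*i+j)) * X^i

theorem part_coeff (n j : ℕ) (p : ℂ[X]) (i : ℕ) :
    (part n j p).coeff i = if i < 2*n+1 then p.coeff (3*i+j) else 0 := by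
  unfold part
  simp only [finsetSum_coeff, coeff_C_mul, coeff_X_pow]
  split_ifs with h
  · rw [Finset.sum_eq_single_of_mem i (Finset.mem_range.mpr h)]
    · simp
    · intro j _ hj; rw [if_neg (Ne.symm hj), mul_zero]
  · apply Finset.sum_eq_zero
    intro j hj
    rw [Finset.mem_range] at hj
    rw [if_neg (by omega), mul_zero]

theorem part_natDegree (n j : ℕ) (p : ℂ[X]) : (part n j p).natDegree ≤ 2*n := by
  rw [Polynomial.natDegree_le_iff_coeff_eq_zero]
  intro i hi
  rw [part_coeff, if_neg (by omega)]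

theorem part_sum (n : ℕ) (p : ℂ[X]) (hp : p.natDegree ≤ 6*n+2) :
    p = expand ℂ 3 (part n 0 p) + X * expand ℂ 3 (part n 1 p) +
      X^2 * expand ℂ 3 (part n 2 p) := by
  ext k
  rw [coeff_add, coeff_add]
  have e0 : (expand ℂ 3 (part n 0 p)).coeff k = if k % 3 = 0 then p.coeff k else 0 := by
    rw [coeff_expand (by norm_num)]
    by_cases h : 3 ∣ k
    · rw [if_pos h, if_pos (by omega), part_coeff]
      split_ifs with h1
      · congr 1; omega
      · rw [coeff_eq_zero_of_natDegree_lt (by omega)]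
    · rw [if_neg h, if_neg (by omega)]
  have e1 : (X * expand ℂ 3 (part n 1 p)).coeff k = if k % 3 = 1 then p.coeff k else 0 := by
    rcases k with _ | k
    · simp
    · rw [coeff_X_mul, coeff_expand (by norm_num)]
      by_cases h : 3 ∣ k
      · rw [if_pos h, if_pos (by omega), part_coeff]
        split_ifs with h1
        · congr 1; omega
        · rw [coeff_eq_zero_of_natDegree_lt (by omega)]
      · rw [if_neg h, if_neg (by omega)]
  have e2 : (X^2 * expand ℂ 3 (part n 2 p)).coeff k = if k % 3 = 2 then p.coeff k else 0 := by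
    rcases k with _ | _ | k
    · simp
    · rw [pow_two, mul_assoc]; simp
    · rw [show k + 1 + 1 = k + 2 by ring, coeff_X_pow_mul, coeff_expand (by norm_num)]
      by_cases h : 3 ∣ k
      · rw [if_pos h, if_pos (by omega), part_coeff]
        split_ifs with h1
        · congr 1; omega
        · rw [coeff_eq_zero_of_natDegree_lt (by omega)]
      · rw [if_neg h, if_neg (by omega)]
  rw [e0, e1, e2]
  have : k % 3 = 0 ∨ k % 3 = 1 ∨ k % 3 = 2 := by omega
  rcases this with h | h | h <;> simp [h]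

theorem part_reflect (n j : ℕ) (hj : j ≤ 2) (p : ℂ[X]) :
    part n j (reflect (6*n+2) p) = reflect (2*n) (part n (2-j) p) := by
  ext i
  rw [part_coeff, coeff_reflect, coeff_reflect, part_coeff]
  by_cases h : i < 2*n+1
  · rw [if_pos h, revAt_le (show 3*i+j ≤ 6*n+2 by omega), revAt_le (show i ≤ 2*n by omega),
      if_pos (by omega)]
    congr 1; omega
  · rw [if_neg h, revAt_eq_self_of_lt (show 2*n < i by omega), if_neg h]

theorem comp_expand (q : ℂ) (hq : q^3 = 1) (f : ℂ[X]) :
    (expand ℂ 3 f).comp (C q * X) = expand ℂ 3 f := by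
  rw [expand_eq_comp_X_pow, comp_assoc]
  congr 1
  rw [X_pow_comp, mul_pow, ← C_pow, hq, C_1, one_mul]

theorem comp_decomp (q : ℂ) (hq : q^3 = 1) (f0 f1 f2 : ℂ[X]) :
    (expand ℂ 3 f0 + X * expand ℂ 3 f1 + X^2 * expand ℂ 3 f2).comp (C q * X) =
      expand ℂ 3 f0 + C q * (X * expand ℂ 3 f1) + C (q^2) * (X^2 * expand ℂ 3 f2) := by
  rw [add_comp, add_comp, mul_comp, mul_comp, comp_expand q hq, comp_expand q hq,
    comp_expand q hq, X_comp, X_pow_comp, mul_pow, ← C_pow]
  ring

/-- main consequences of the reflection relations -/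
theorem NM {a b n : ℕ} {q : ℂ} (hq : q^2 + q + 1 = 0) (p ps : ℂ[X])
    (hab : a + b = 2*n) (hp : p.natDegree ≤ 6*n+2) (hps : ps = reflect (6*n+2) p)
    (h0 : (X - 1)^(4*n+1) ∣ p) (h0s : (X - 1)^(4*n+1) ∣ ps)
    (hA : (X - 1)^(2*a+1) ∣ dA q n p) (hB : (X - 1)^(2*b+1) ∣ dB q n p)
    {Pa Qa Pb Qb : ℂ[X]} (ha : Pade a Pa Qa) (hb : Pade b Pb Qb) :
    ∃ c : ℂ, C q * part n 1 p + C (q^2) * reflect (2*n) (part n 1 p) = C c * Pb * Qa ∧
      part n 0 p + reflect (2*n) (part n 2 p) = C c * Pb * Pa := by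
  have hq3 : q^3 = 1 := by
    have : q^3 - 1 = (q-1)*(q^2+q+1) := by ring
    rw [hq, mul_zero] at this; exact sub_eq_zero.mp this
  have hq23 : (q^2)^3 = 1 := by rw [← pow_mul, show 2*3 = 3*2 by rfl, pow_mul, hq3, one_pow]
  have hpsd : ps.natDegree ≤ 6*n+2 := by rw [hps]; exact natDegree_reflect_le' _ _ hp
  have d1 := part_sum n p hp
  have d2 := part_sum n ps hpsd
  have r0 : part n 0 ps = reflect (2*n) (part n 2 p) := by
    rw [hps]; exact part_reflect n 0 (by omega) p
  have r1 : part n 1 ps = reflect (2*n) (part n 1 p) := by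
    rw [hps]; exact part_reflect n 1 (by omega) p
  have r2 : part n 2 ps = reflect (2*n) (part n 0 p) := by
    rw [hps]; exact part_reflect n 2 (by omega) p
  rw [r0, r1, r2] at d2
  set p0 := part n 0 p with hp0
  set p1 := part n 1 p with hp1
  set p2 := part n 2 p with hp2
  have hd0 : p0.natDegree ≤ 2*n := part_natDegree _ _ _
  have hd1 : p1.natDegree ≤ 2*n := part_natDegree _ _ _
  have hd2 : p2.natDegree ≤ 2*n := part_natDegree _ _ _
  have rr : ∀ f : ℂ[X], reflect (2*n) (reflect (2*n) f) = f := by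
    intro f; ext i; rw [coeff_reflect, coeff_reflect, revAt_invol]
  have hη : q - q^2 ≠ 0 := by
    intro h
    have h1 : q^2 = q := (sub_eq_zero.mp h).symm
    rw [h1] at hq
    have h2 : q = -1/2 := by linear_combination hq/2
    rw [h2] at h1; norm_num at h1
  -- expanded forms of the defects
  have eA : dA q n p = C q * (expand ℂ 3 p0 + C (q^2) * (X * expand ℂ 3 p1) +
      C (q^4) * (X^2 * expand ℂ 3 p2)) - C (q^2) * (expand ℂ 3 (reflect (2*n) p2) +
      C q * (X * expand ℂ 3 (reflect (2*n) p1)) + C (q^2) * (X^2 * expand ℂ 3 (reflect (2*n) p0))) := by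
    unfold dA
    rw [← hps]
    conv_lhs => rw [d1, d2]
    rw [comp_decomp _ hq23, comp_decomp _ hq3, ← pow_mul]
  have eB : dB q n p = C (q^2) * (expand ℂ 3 p0 + C q * (X * expand ℂ 3 p1) +
      C (q^2) * (X^2 * expand ℂ 3 p2)) - C q * (expand ℂ 3 (reflect (2*n) p2) +
      C (q^2) * (X * expand ℂ 3 (reflect (2*n) p1)) + C (q^4) * (X^2 * expand ℂ 3 (reflect (2*n) p0))) := by
    unfold dB
    rw [← hps]
    conv_lhs => rw [d1, d2]
    rw [comp_decomp _ hq23, comp_decomp _ hq3, ← pow_mul]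
  have hqC : (C q : ℂ[X])^2 + C q + 1 = 0 := by
    rw [← C_pow, ← C_add, ← C_1, ← C_add, hq, C_0]
  have hdvdC : ∀ (k : ℕ) (f : ℂ[X]), (X - 1 : ℂ[X])^k ∣ C (q - q^2) * f → (X - 1 : ℂ[X])^k ∣ f := by
    intro k f hf
    have : f = C (q - q^2)⁻¹ * (C (q - q^2) * f) := by
      rw [← mul_assoc, ← C_mul, inv_mul_cancel₀ hη, C_1, one_mul]
    rw [this]; exact hf.mul_left _
  have hN : (C q * p1 + C (q^2) * reflect (2*n) p1).natDegree ≤ 2*n := by
    refine (natDegree_add_le _ _).trans (max_le ?_ ?_)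
    · exact (natDegree_C_mul_le _ _).trans hd1
    · exact (natDegree_C_mul_le _ _).trans (natDegree_reflect_le' _ _ hd1)
  have hM : (p0 + reflect (2*n) p2).natDegree ≤ 2*n := by
    refine (natDegree_add_le _ _).trans (max_le hd0 (natDegree_reflect_le' _ _ hd2))
  refine uniq hab ha hb hN hM ?_ ?_ ?_
  · apply hdvdC
    simp only [map_add, map_mul, expand_C]
    have key : C (q - q^2) * (X * (C q * expand ℂ 3 p1 + C (q^2) * expand ℂ 3 (reflect (2*n) p1)) -
        (expand ℂ 3 p0 + expand ℂ 3 (reflect (2*n) p2))) = - dA q n p + C (q^2) * p - C q * ps := by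
      rw [eA]
      conv_rhs => rw [d1, d2]
      generalize expand ℂ 3 p0 = x0
      generalize expand ℂ 3 p1 = x1
      generalize expand ℂ 3 p2 = x2
      generalize expand ℂ 3 (reflect (2*n) p0) = y0
      generalize expand ℂ 3 (reflect (2*n) p1) = y1
      generalize expand ℂ 3 (reflect (2*n) p2) = y2
      simp only [C_pow, C_sub]
      generalize hQ : (C q : ℂ[X]) = Q at hqC ⊢
      linear_combination ((Q-Q^2)*(X*y1) + (-Q^2+Q^3)*(X^2*x2) + (Q-Q^2)*(X^2*y0)) * hqC
    rw [key]
    refine dvd_sub (dvd_add (dvd_neg.mpr hA) ?_) ?_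
    · exact ((pow_dvd_pow _ (by omega)).trans h0).mul_left _
    · exact ((pow_dvd_pow _ (by omega)).trans h0s).mul_left _
  · apply hdvdC
    simp only [map_add, map_mul, expand_C, reflect_add, rr]
    have key : C (q - q^2) * (X * (C q * expand ℂ 3 p1 + C (q^2) * expand ℂ 3 (reflect (2*n) p1)) -
        X^2 * (expand ℂ 3 (reflect (2*n) p0) + expand ℂ 3 p2)) = - dB q n p + C (q^2) * p - C q * ps := by
      rw [eB]
      conv_rhs => rw [d1, d2]
      generalize expand ℂ 3 p0 = x0
      generalize expand ℂ 3 p1 = x1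
      generalize expand ℂ 3 p2 = x2
      generalize expand ℂ 3 (reflect (2*n) p0) = y0
      generalize expand ℂ 3 (reflect (2*n) p1) = y1
      generalize expand ℂ 3 (reflect (2*n) p2) = y2
      simp only [C_pow, C_sub]
      generalize hQ : (C q : ℂ[X]) = Q at hqC ⊢
      linear_combination ((Q-Q^2)*(X*y1) + (-Q+Q^2)*(X^2*x2) + (Q^2-Q^3)*(X^2*y0)) * hqC
    rw [key]
    refine dvd_sub (dvd_add (dvd_neg.mpr hB) ?_) ?_
    · exact ((pow_dvd_pow _ (by omega)).trans h0).mul_left _
    · exact ((pow_dvd_pow _ (by omega)).trans h0s).mul_left _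
  · simp only [map_add, map_mul, expand_C, reflect_add, reflect_C_mul, rr]
    have key : X * (C q * expand ℂ 3 p1 + C (q^2) * expand ℂ 3 (reflect (2*n) p1) +
        (C q * expand ℂ 3 (reflect (2*n) p1) + C (q^2) * expand ℂ 3 p1)) -
        (expand ℂ 3 p0 + expand ℂ 3 (reflect (2*n) p2)) -
        X^2 * (expand ℂ 3 (reflect (2*n) p0) + expand ℂ 3 p2) = - (p + ps) := by
      conv_rhs => rw [d1, d2]
      generalize expand ℂ 3 p0 = x0
      generalize expand ℂ 3 p1 = x1
      generalize expand ℂ 3 p2 = x2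
      generalize expand ℂ 3 (reflect (2*n) p0) = y0
      generalize expand ℂ 3 (reflect (2*n) p1) = y1
      generalize expand ℂ 3 (reflect (2*n) p2) = y2
      simp only [C_pow]
      generalize hQ : (C q : ℂ[X]) = Q at hqC ⊢
      linear_combination (X*x1 + X*y1) * hqC
    rw [key]
    exact dvd_neg.mpr (dvd_add h0 h0s)

end Pool.Agent.H136R2.Cardy
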